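import Mathlib
import Pool.Agent.Lib.P1ae330.Lattice

/-!
# Cubic forms in 12 variables without rational (or even `p`-adic) lines

For every prime `p` the cubic form
`a b² + a² c + p b c² + N(w) + p N(x) + p² N(y)`
in the 12 variables `a, b, c, w₁, w₂, w₃, x₁, x₂, x₃, y₁, y₂, y₃`, where `N` is an integral
ternary cubic form that is anisotropic modulo `p` (a norm form of the field with `p³` elements),
contains no line defined over `ℚ_p`, hence no line defined over `ℚ`.  In particular `n₀ ≥ 12`.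
-/

open MvPolynomial Pool.Agent.Lib.P1ae330

namespace Pool.Agent.Results.MP_1ae330_nt.TwelveVariables

/-- A cubic form in `n` variables over the field `K`: a nonzero homogeneous polynomial of
degree `3`. -/
def IsCubicForm {n : ℕ} {K : Type*} [Field K] (F : MvPolynomial (Fin n) K) : Prop :=
  F ≠ 0 ∧ F.IsHomogeneous 3

/-- The hypersurface `F = 0` contains a line defined over `K`: there is a two-dimensional
`K`-linear subspace of `K^n` on which `F` vanishes. -/
def HasLine {n : ℕ} {K : Type*} [Field K] (F : MvPolynomial (Fin n) K) : Prop :=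
  ∃ W : Submodule K (Fin n → K), Module.finrank K W = 2 ∧ ∀ w ∈ W, eval w F = 0

/-- the polynomial -/
noncomputable def form (p : ℕ) (k : Fin 10 → ℤ) (K : Type*) [Field K] : MvPolynomial (Fin 12) K :=
  fval p k (fun i => (X i : MvPolynomial (Fin 12) K))

theorem eval_form (p : ℕ) (k : Fin 10 → ℤ) (K : Type*) [Field K] (w : Fin 12 → K) :
    eval w (form p k K) = fval p k w := by
  unfold form
  rw [map_fval]
  simp

theorem map_form (p : ℕ) (k : Fin 10 → ℤ) {K L : Type*} [Field K] [Field L] (f : K →+* L) :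
    (form p k K).map f = form p k L := by
  unfold form
  rw [map_fval (MvPolynomial.map f)]
  simp

theorem ncub_homogeneous (k : Fin 10 → ℤ) {K : Type*} [Field K] (i j l : Fin 12) :
    (ncub k (X i : MvPolynomial (Fin 12) K) (X j) (X l)).IsHomogeneous 3 := by
  have hX : ∀ i : Fin 12, (X i : MvPolynomial (Fin 12) K).IsHomogeneous 1 :=
    fun i => isHomogeneous_X K i
  have hint : ∀ m : ℤ, ((m : ℤ) : MvPolynomial (Fin 12) K).IsHomogeneous 0 := by
    intro m
    have : ((m : ℤ) : MvPolynomial (Fin 12) K) = C (m : K) := by simp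
    rw [this]
    exact isHomogeneous_C _ _
  have h3 : ∀ i : Fin 12, ((X i : MvPolynomial (Fin 12) K) ^ 3).IsHomogeneous 3 := fun i => by
    simpa using (hX i).pow 3
  have h21 : ∀ i j : Fin 12, ((X i : MvPolynomial (Fin 12) K) ^ 2 * X j).IsHomogeneous 3 :=
    fun i j => by simpa using ((hX i).pow 2).mul (hX j)
  have h111 : (X i * X j * X l : MvPolynomial (Fin 12) K).IsHomogeneous 3 := by
    simpa using ((hX i).mul (hX j)).mul (hX l)
  have hm : ∀ (m : ℤ) {P : MvPolynomial (Fin 12) K}, P.IsHomogeneous 3 →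
      ((m : MvPolynomial (Fin 12) K) * P).IsHomogeneous 3 := fun m P hP => by
    simpa using (hint m).mul hP
  unfold ncub
  exact (((((((((hm _ (h3 _)).add (hm _ (h3 _))).add (hm _ (h3 _))).add (hm _ (h21 _ _))).add
    (hm _ (h21 _ _))).add (hm _ (h21 _ _))).add (hm _ (h21 _ _))).add (hm _ (h21 _ _))).add
    (hm _ (h21 _ _))).add (hm _ h111)

theorem form_homogeneous (p : ℕ) (k : Fin 10 → ℤ) (K : Type*) [Field K] :
    (form p k K).IsHomogeneous 3 := by
  have hX : ∀ i : Fin 12, (X i : MvPolynomial (Fin 12) K).IsHomogeneous 1 :=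
    fun i => isHomogeneous_X K i
  have hnat : ∀ m : ℕ, ((m : ℕ) : MvPolynomial (Fin 12) K).IsHomogeneous 0 := by
    intro m
    have : ((m : ℕ) : MvPolynomial (Fin 12) K) = C (m : K) := by simp
    rw [this]
    exact isHomogeneous_C _ _
  have h12 : ∀ i j : Fin 12, (X i * (X j : MvPolynomial (Fin 12) K) ^ 2).IsHomogeneous 3 :=
    fun i j => by simpa using (hX i).mul ((hX j).pow 2)
  have h21 : ∀ i j : Fin 12, ((X i : MvPolynomial (Fin 12) K) ^ 2 * X j).IsHomogeneous 3 :=
    fun i j => by simpa using ((hX i).pow 2).mul (hX j)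
  have hm : ∀ (m : ℕ) {P : MvPolynomial (Fin 12) K}, P.IsHomogeneous 3 →
      ((m : MvPolynomial (Fin 12) K) * P).IsHomogeneous 3 := fun m P hP => by
    simpa using (hnat m).mul hP
  have hm2 : ∀ (m : ℕ) {P : MvPolynomial (Fin 12) K}, P.IsHomogeneous 3 →
      ((m : MvPolynomial (Fin 12) K) ^ 2 * P).IsHomogeneous 3 := fun m P hP => by
    have := hm m (hm m hP)
    rw [pow_two, mul_assoc]
    exact this
  unfold form fval
  exact (((((h12 _ _).add (h21 _ _)).add (hm _ (h12 _ _))).add (ncub_homogeneous k _ _ _)).add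
    (hm _ (ncub_homogeneous k _ _ _))).add (hm2 _ (ncub_homogeneous k _ _ _))

theorem form_ne_zero {p : ℕ} (k : Fin 10 → ℤ) (K : Type*) [Field K] :
    form p k K ≠ 0 := by
  intro h0
  -- evaluate at a point with `a = 1`, `b = 1` and the others zero
  have h1 := eval_form p k K ![1, 1, 0, 0, 0, 0, 0, 0, 0, 0, 0, 0]
  rw [h0, map_zero] at h1
  have h2 : fval p k (![1, 1, 0, 0, 0, 0, 0, 0, 0, 0, 0, 0] : Fin 12 → K) = 1 := by
    simp [fval, ncub]
  rw [h2] at h1
  exact zero_ne_one h1

/-- **Main theorem.** (1) For every prime `p` there is a cubic form in 12 variables over `ℚ`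
containing no line over `ℚ_p` (and hence none over `ℚ`).  (2) Consequently `n₀ ≥ 12` if `n₀` is the
largest number of variables of a cubic form over `ℚ` without a rational line. -/
theorem result :
    (∀ (p : ℕ) [Fact p.Prime], ∃ F : MvPolynomial (Fin 12) ℚ, IsCubicForm F ∧ ¬ HasLine F ∧
      ¬ HasLine (F.map (algebraMap ℚ ℚ_[p]))) ∧
    (∀ n₀ : ℕ, IsGreatest {n : ℕ | 2 ≤ n ∧ ∃ F : MvPolynomial (Fin n) ℚ,
      IsCubicForm F ∧ ¬ HasLine F} n₀ → 12 ≤ n₀) := by
  have main : ∀ (p : ℕ) [Fact p.Prime], ∃ F : MvPolynomial (Fin 12) ℚ, IsCubicForm F ∧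
      ¬ HasLine F ∧ ¬ HasLine (F.map (algebraMap ℚ ℚ_[p])) := by
    intro p hp
    obtain ⟨k, hk⟩ := exists_anisotropic p
    refine ⟨form p k ℚ, ⟨form_ne_zero k ℚ, form_homogeneous p k ℚ⟩, ?_, ?_⟩
    · rintro ⟨W, hW, h⟩
      refine no_line hk (algebraMap ℚ ℚ_[p]) W hW fun w hw => ?_
      rw [← eval_form]
      exact h w hw
    · rintro ⟨W, hW, h⟩
      refine no_line hk (RingHom.id ℚ_[p]) W hW fun w hw => ?_
      rw [← eval_form, ← map_form p k (algebraMap ℚ ℚ_[p])]
      exact h w hw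
  refine ⟨main, fun n₀ h => ?_⟩
  have : Fact (Nat.Prime 2) := ⟨Nat.prime_two⟩
  obtain ⟨F, hF, hF', -⟩ := main 2
  exact h.2 ⟨by norm_num, F, hF, hF'⟩

end Pool.Agent.Results.MP_1ae330_nt.TwelveVariables
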